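import Pool.Agent.H8.Spiral2

namespace Pool.Agent.Results.MP_ca213f_co.AllArms
open Set Function Topology NNReal

/-- The closed unit square with lower left corner `(q.1, q.2)`. -/
def Square (q : ℤ × ℤ) : Set ℂ :=
  {z | q.1 ≤ z.re ∧ z.re ≤ q.1 + 1 ∧ q.2 ≤ z.im ∧ z.im ≤ q.2 + 1}

/-- An arc: an injective continuous (hence homeomorphic) image of `[0,1]`. -/
def IsArc (A : Set ℂ) : Prop :=
  ∃ f : unitInterval → ℂ, Continuous f ∧ Injective f ∧ range f = A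

/-- An unbounded simple curve: an unbounded homeomorphic image of `ℝ` or of `[0,∞)`. -/
def IsCurve (C : Set ℂ) : Prop := ¬ Bornology.IsBounded C ∧
  ((∃ f : ℝ → ℂ, IsEmbedding f ∧ range f = C) ∨ ∃ f : ℝ≥0 → ℂ, IsEmbedding f ∧ range f = C)

/-- The square tiling has a marking `M`, carried to the tiles by isometries `σ q`, whose union is
the union of `n` pairwise disjoint unbounded simple curves. -/
def Spiral (n : ℕ) : Prop :=
  ∃ (M : Set (Set ℂ)) (σ : ℤ × ℤ → ℂ → ℂ) (C : Fin n → Set ℂ), M.Finite ∧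
    (∀ A ∈ M, IsArc A ∧ A ⊆ Square 0) ∧ (∀ q, Isometry (σ q) ∧ σ q '' Square 0 = Square q) ∧
    (∀ j, IsCurve (C j)) ∧ (Pairwise fun i j => Disjoint (C i) (C j)) ∧
    ⋃ q, σ q '' ⋃₀ M = ⋃ j, C j

open Pool.Agent.H8.Spiral in
theorem result (n : ℕ) (hn : 0 < n) : Spiral n := by
  obtain ⟨γ, κ, -, g1, g2, g3, g4⟩ := square hn
  refine ⟨{segment ℝ 0 1}, fun q => rot (κ q) q, fun j => range (γ j), finite_singleton _, ?_,
    fun q => ⟨rot_iso _ _, rot_sq _ _⟩, fun j => ⟨g2 j, .inr ⟨_, (g1 j).isEmbedding, rfl⟩⟩, g3,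
    by rwa [sUnion_singleton]⟩
  rintro _ rfl
  refine ⟨arc zero_ne_one, ?_⟩
  rintro _ ⟨a, b, ha, hb, h, rfl⟩
  simp [Square, hb]
  linarith

end Pool.Agent.Results.MP_ca213f_co.AllArms
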